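import Pool.Agent.THG.G.RealA
import Pool.Agent.THF.T2.Perp
import Pool.Agent.THF.F.ExA

/-!
# THG/G-Real: elements with prescribed signs and local conditions

PLAN.  `exists_loc`: `u` from `exists_sign`, `y` from `exists_pos S u` (THF/T2/Perp): totally positive, `LSq v (y / u)` for `v ∈ S`: take `u * y = (y / u) * u ^ 2`.
`exists_TS`: `ST` = the places not away from `T` (`not_away_finite`), two different places `v1, v2` away from `T` (there are infinitely many places), `d` from `exists_loc ST A`, at `v1` (`v2`) an element `a` with `¬ LSq a`, `¬ LSq (a x)` (`¬ LSq (a y)`): `exa_loc` of THF/F/ExA (private: copy); `approx_many` (MD/I/Apx) as in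
`exists_ax` (THF/F/ExA): `z / d ∈ HSub ST`.
-/

namespace Pool.Agent.THG

open NumberField IsDedekindDomain Pool.Agent.HWR Pool.Agent.QD Pool.Agent.QD.In Pool.Agent.LD
  Pool.Agent.MD Pool.Agent.THF

variable {K : Type} [Field K] [NumberField K]

private theorem real_neg {w : HeightOneSpectrum (𝓞 K)} {x : Kˣ}
    (hx : uK w x = -1) : ¬ LSq w x := by
  intro h
  have h1 : uK w x = 1 := uK_of_LSq h
  rw [hx] at h1
  norm_num at h1

private theorem real_even {w : HeightOneSpectrum (𝓞 K)}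
    {e : Kˣ} (he : uK w e = -1) : Even (ordK w e) := by
  rw [← Int.not_odd_iff_even]
  intro h
  have h2 : uK w e = 0 := uK_eq_zero_iff.2 h
  rw [he] at h2
  norm_num at h2

private theorem real_mul (w : HeightOneSpectrum (𝓞 K))
    (x y : Kˣ) : ordK w (x * y) = ordK w x + ordK w y := Pool.Agent.QD.ordK_mul w x y

/-- the local element -/
private theorem real_loc {T : Finset ℕ} (h2 : 2 ∈ T)
    {w : HeightOneSpectrum (𝓞 K)} (hw : Away K T w) (x : Kˣ) :
    ∃ y : Kˣ, ∀ a : Kˣ, LSq w (a / y) → ¬ LSq w a ∧ ¬ LSq w (a * x) := by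
  have h2w : (2 : 𝓞 K) ∉ w.asIdeal := by
    have := hw 2 h2
    exact_mod_cast this
  obtain ⟨e, he⟩ := Pool.Agent.LD.exists_nonres w h2w
  obtain ⟨p, hp⟩ := Pool.Agent.QD.N2.exists_ordK w 1
  rcases Int.even_or_odd (ordK w x) with hx | hx
  · refine ⟨p, fun a ha => ?_⟩
    have h3 : Even (ordK w (a / p)) := even_of_LSq ha
    have h4 : ordK w a = ordK w (a / p) + ordK w p := by
      rw [← real_mul, div_mul_cancel]
    have h5 : Odd (ordK w a) := by
      rw [h4, hp]
      exact h3.add_odd odd_one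
    refine ⟨fun h => ?_, fun h => ?_⟩
    · exact (Int.not_even_iff_odd.2 h5) (even_of_LSq h)
    · have h6 := even_of_LSq h
      rw [real_mul] at h6
      exact (Int.not_even_iff_odd.2 (h5.add_even hx)) h6
  · refine ⟨e, fun a ha => ?_⟩
    have h3 : Even (ordK w (a / e)) := even_of_LSq ha
    have h4 : ordK w a = ordK w (a / e) + ordK w e := by
      rw [← real_mul, div_mul_cancel]
    have h5 : Even (ordK w a) := by
      rw [h4]
      exact h3.add (real_even he)
    refine ⟨fun h => ?_, fun h => ?_⟩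
    · have h6 := LSq_div h ha
      rw [div_div_cancel] at h6
      exact real_neg he h6
    · have h6 := even_of_LSq h
      rw [real_mul] at h6
      exact (Int.not_even_iff_odd.2 (h5.add_odd hx)) h6

private theorem real_nonsq (K : Type) [Field K] [NumberField K] : ∃ x : Kˣ, ¬ IsSquare x := by
  obtain ⟨P, hP1, hP2⟩ := Ring.not_isField_iff_exists_prime.1 (RingOfIntegers.not_isField K)
  set v : HeightOneSpectrum (𝓞 K) := ⟨P, hP2, hP1⟩ with hv
  obtain ⟨p, hp⟩ := Pool.Agent.QD.N2.exists_ordK v 1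
  refine ⟨p, ?_⟩
  rintro ⟨y, hy⟩
  rw [hy, real_mul] at hp
  omega

private theorem real_sq {v : HeightOneSpectrum (𝓞 K)} {x : Kˣ} (h : IsSquare x) : LSq v x := by
  obtain ⟨r, hr⟩ := h
  rw [hr, ← pow_two]
  exact LSq_sq v r

theorem exists_loc (S : Finset (HeightOneSpectrum (𝓞 K))) (A : Set (K →+* ℝ)) :
    ∃ u : Kˣ, (∀ v ∈ S, LSq v u) ∧ ∀ φ : K →+* ℝ, (φ ∈ A → φ (u : K) < 0) ∧
      (φ ∉ A → 0 < φ (u : K)) := by
  obtain ⟨u, hu⟩ := exists_sign A
  obtain ⟨y, hy1, hy2⟩ := exists_pos S u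
  refine ⟨u * y, fun v hv => ?_, fun φ => ⟨fun hφ => ?_, fun hφ => ?_⟩⟩
  · have h1 : u * y = y / u * u ^ 2 := by
      rw [pow_two, ← mul_assoc, div_mul_cancel, mul_comm]
    rw [h1]
    exact LSq_mul (hy1 v hv) (LSq_sq v u)
  · rw [Units.val_mul, map_mul]
    exact mul_neg_of_neg_of_pos ((hu φ).1 hφ) (hy2 φ)
  · rw [Units.val_mul, map_mul]
    exact mul_pos ((hu φ).2 hφ) (hy2 φ)

theorem exists_TS {T : Finset ℕ} (hTp : ∀ p ∈ T, p.Prime) (h2 : 2 ∈ T) (A : Set (K →+* ℝ))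
    (x y : Kˣ) : ∃ z : Kˣ, (∀ v : HeightOneSpectrum (𝓞 K), ¬ Away K T v → LSq v z) ∧
      (∀ φ : K →+* ℝ, (φ ∈ A → φ (z : K) < 0) ∧ (φ ∉ A → 0 < φ (z : K))) ∧
      ¬ IsSquare z ∧ ¬ IsSquare (x * z) ∧ ¬ IsSquare (y * z) := by
  classical
  have hfin := not_away_finite K T hTp
  obtain ⟨d, hd1, hd2⟩ := exists_loc hfin.toFinset A
  obtain ⟨e, he⟩ := real_nonsq K
  obtain ⟨v1, h1, -⟩ := exists_inert hfin.toFinset e he
  obtain ⟨v2, h2', -⟩ := exists_inert (insert v1 hfin.toFinset) e he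
  have h12 : v2 ≠ v1 := fun h => h2' (by rw [h]; exact Finset.mem_insert_self _ _)
  have h2s : v2 ∉ hfin.toFinset := fun h => h2' (Finset.mem_insert_of_mem h)
  have haw : ∀ v : HeightOneSpectrum (𝓞 K), v ∉ hfin.toFinset → Away K T v := by
    intro v hv
    by_contra hcon
    exact hv (hfin.mem_toFinset.2 hcon)
  obtain ⟨y1, hy1⟩ := real_loc h2 (haw v1 h1) x
  obtain ⟨y2, hy2⟩ := real_loc h2 (haw v2 h2s) y
  have hdis : ∀ v ∈ ({v1, v2} : Finset (HeightOneSpectrum (𝓞 K))), v ∉ hfin.toFinset := by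
    intro v hv
    rw [Finset.mem_insert, Finset.mem_singleton] at hv
    rcases hv with rfl | rfl
    · exact h1
    · exact h2s
  obtain ⟨z, hz, hz'⟩ := approx_many hfin.toFinset {v1, v2} hdis d
    (fun v => if v = v1 then y1 else y2)
  have ha1 := mem_HSub.1 hz
  have hz1 : LSq v1 (z / y1) := by
    have h3 := hz' v1 (Finset.mem_insert_self _ _)
    rwa [if_pos rfl] at h3
  have hz2 : LSq v2 (z / y2) := by
    have h3 := hz' v2 (Finset.mem_insert_of_mem (Finset.mem_singleton_self _))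
    rwa [if_neg h12] at h3
  have hφ : ∀ φ : K →+* ℝ, φ (z : K) = φ ((z / d : Kˣ) : K) * φ (d : K) := by
    intro φ
    rw [← map_mul, ← Units.val_mul, div_mul_cancel]
  refine ⟨z, fun v hv => ?_, fun φ => ⟨fun h => ?_, fun h => ?_⟩, fun h => ?_, fun h => ?_,
    fun h => ?_⟩
  · have hv' : v ∈ hfin.toFinset := hfin.mem_toFinset.2 hv
    have h6 := LSq_mul (ha1.1 v hv') (hd1 v hv')
    rwa [div_mul_cancel] at h6
  · rw [hφ]
    exact mul_neg_of_pos_of_neg (ha1.2 φ) ((hd2 φ).1 h)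
  · rw [hφ]
    exact mul_pos (ha1.2 φ) ((hd2 φ).2 h)
  · exact (hy1 z hz1).1 (real_sq h)
  · rw [mul_comm] at h
    exact (hy1 z hz1).2 (real_sq h)
  · rw [mul_comm] at h
    exact (hy2 z hz2).2 (real_sq h)

end Pool.Agent.THG
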