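import Pool.Agent.THG.G.Sg1
import Pool.Agent.THF.K.Rel43
import Pool.Agent.H73.AL.Final

/-!
# THG/G-V4: the relation of the biquadratic extension for the signs

PLAN.  `SG_pos`: a square: `SG_sq`, otherwise `ExPM.2` for `L = (qf hx).L` and `SG_of_hw`.
`v4_sg`: `L` = `K(√z)` (`exists_quad`), `M = L(√x)` (`exists_quad`, `x` is no square in `L`: `not_sq_quad`, see `sgn_of`, THF/F/Sgn.lean, whose first part can be copied).  For a real embedding `ψ` of `L` the restriction `φ = ψ ∘ algebraMap` is a real embedding of `K` with `φ z = ψ(θ)^2 > 0`, so `0 < φ x`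
(`hs`): `x` is totally positive in `L`: `ExPM.2` for `L` gives `D.HW a M`.  `rel43` and `rel43_w` (with `F = K(√x)`, `F' = K(√(x z))`): `Lam K ^ 2 * Lam M = LX x * LX z * LX (x z)` and `w K * (w K * (w M * 1)) = w L * (w F * (w F' * 1))`, so `w M = wx x * wx z * wx (x z)` (`D.w F = wx D x` as in `SG_of_hw`, `w K ^ 2 = 1`).
The functions `Λ_K^2 Λ_M` and `Λ_x Λ_z Λ_xz` are entire and equal (identity theorem), functional equations: `w M = e1 e2 e3 wx x wx z wx (x z)` (values at a point with `Re > 3/2` are not `0`), so `e1 e2 e3 = 1`.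
-/

namespace Pool.Agent.THG

open NumberField IsDedekindDomain Pool.Agent.HWR Pool.Agent.QD Pool.Agent.QD.In Pool.Agent.LD
  Pool.Agent.MD Pool.Agent.THF

/-- the identity theorem for entire functions which agree on a half plane -/
private theorem v4_id {f g : ℂ → ℂ} (hf : Differentiable ℂ f) (hg : Differentiable ℂ g)
    (h : ∀ s : ℂ, 3 / 2 < s.re → f s = g s) : ∀ s, f s = g s := by
  have a1 : AnalyticOnNhd ℂ f Set.univ := fun z _ => hf.analyticAt z
  have a2 : AnalyticOnNhd ℂ g Set.univ := fun z _ => hg.analyticAt z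
  have h1 : f = g := by
    refine AnalyticOnNhd.eq_of_eventuallyEq (z₀ := 2) a1 a2 ?_
    have h2 : {s : ℂ | 3 / 2 < s.re} ∈ nhds (2 : ℂ) :=
      (isOpen_lt continuous_const Complex.continuous_re).mem_nhds (by norm_num)
    filter_upwards [h2] with s hs
    exact h s hs
  exact fun s => congrFun h1 s

private theorem v4_unit {K : Type} [Field K] {x : Kˣ} (hx : ¬ IsSquare x) : ¬ IsSquare (x : K) := by
  rintro ⟨y, hy⟩
  have hy0 : y ≠ 0 := by
    rintro rfl
    rw [mul_zero] at hy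
    exact x.ne_zero hy
  refine hx ⟨Units.mk0 y hy0, Units.ext ?_⟩
  rw [hy, Units.val_mul, Units.val_mk0]

private theorem v4_wx {T : Finset ℕ} (D : LocData T) {K : Type} [Field K] [NumberField K] {x : Kˣ}
    (hx : ¬ IsSquare x) : D.w (qf hx).L = wx D x := by
  unfold wx nr nc sgx LocData.w
  rw [dif_neg hx, dif_neg hx, dif_neg hx]

private theorem v4_w {T : Finset ℕ} (D : LocData T) {K : Type} [Field K] [NumberField K] {x : Kˣ}
    (hx : ¬ IsSquare x) (L : Type) [Field L] [NumberField L] [Algebra K L]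
    (hd : Module.finrank K L = 2) (θ : L) (hθ : θ ^ 2 = algebraMap K L (x : K)) :
    D.w L = wx D x := by
  obtain ⟨e⟩ := quad_iso hx L (qf hx).L hd (qf hx).deg θ (qf hx).θ hθ (qf hx).sq
  have h := Pool.Agent.H73.AL.rel_w D (rel_iso e.toRingEquiv T)
  simp only [List.map_cons, List.map_nil, List.prod_cons, List.prod_nil, mul_one] at h
  rw [h, v4_wx]

/-- the algebra of the signs at the point `3` -/
private theorem v4_alg {k1 k2 m1 m2 a1 a2 b1 b2 c1 c2 wK wM wx wz wy e1 e2 e3 : ℂ}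
    (hk : k1 ^ 2 = k2 ^ 2) (hm : m1 = wM * m2) (ha : a1 = e1 * wx * a2) (hb : b1 = e2 * wz * b2)
    (hc : c1 = e3 * wy * c2) (h1 : k1 ^ 2 * m1 = a1 * b1 * c1) (h2 : k2 ^ 2 * m2 = a2 * b2 * c2)
    (ha0 : a1 ≠ 0) (hb0 : b1 ≠ 0) (hc0 : c1 ≠ 0) (hK : wK = 1 ∨ wK = -1)
    (hx : wx = 1 ∨ wx = -1) (hz : wz = 1 ∨ wz = -1) (hy : wy = 1 ∨ wy = -1)
    (hw : wK * (wK * (wM * 1)) = wz * (wx * (wy * 1))) : e1 * e2 * e3 = 1 := by
  have ha2 : a2 ≠ 0 := by
    rintro rfl
    exact ha0 (by rw [ha, mul_zero])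
  have hb2 : b2 ≠ 0 := by
    rintro rfl
    exact hb0 (by rw [hb, mul_zero])
  have hc2 : c2 ≠ 0 := by
    rintro rfl
    exact hc0 (by rw [hc, mul_zero])
  have hK2 : wK * wK = 1 := by
    rcases hK with h | h <;> rw [h] <;> norm_num
  have hx2 : wx * wx = 1 := by
    rcases hx with h | h <;> rw [h] <;> norm_num
  have hz2 : wz * wz = 1 := by
    rcases hz with h | h <;> rw [h] <;> norm_num
  have hy2 : wy * wy = 1 := by
    rcases hy with h | h <;> rw [h] <;> norm_num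
  have hM : wM = wx * wz * wy := by
    linear_combination hw - wM * hK2
  have h3 : a2 * b2 * c2 * (wx * wz * wy * (e1 * e2 * e3 - 1)) = 0 := by
    have h4 : wM * (a2 * b2 * c2) = e1 * wx * a2 * (e2 * wz * b2) * (e3 * wy * c2) := by
      rw [← ha, ← hb, ← hc, ← h1, ← h2, hk, hm]
      ring
    rw [hM] at h4
    linear_combination -h4
  have h5 : wx * wz * wy ≠ 0 := by
    intro h
    have h6 : (wx * wx) * (wz * wz) * (wy * wy) = 0 := by
      linear_combination wx * wz * wy * h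
    rw [hx2, hz2, hy2] at h6
    norm_num at h6
  rcases mul_eq_zero.1 h3 with h | h
  · exact absurd h (mul_ne_zero (mul_ne_zero ha2 hb2) hc2)
  · rcases mul_eq_zero.1 h with h | h
    · exact absurd h h5
    · linear_combination h

variable {T : Finset ℕ} (hTp : ∀ p ∈ T, p.Prime) (hT : ∀ p : ℕ, p.Prime → p < 101 → p ∈ T)
  (D : LocData T) {a : ℕ → ℝ} (ha : ∀ q : ℕ, |a q| ≤ 2 * Real.sqrt q) (hE : ExPM D a)
  {K : Type} [Field K] [NumberField K]

include hTp hT ha hE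

theorem SG_pos {x : Kˣ}
    (hx : (∀ φ : K →+* ℝ, 0 < φ (x : K)) ∨ ∀ φ : K →+* ℝ, φ (x : K) < 0) : SG D a x 1 := by
  by_cases hsq : IsSquare x
  · exact SG_sq hTp hT D ha hsq (hE.1 K)
  · exact SG_of_hw hTp hT D ha hsq (qf hsq).L (qf hsq).deg (qf hsq).θ (qf hsq).sq
      (hE.2 K x hsq hx (qf hsq).L (qf hsq).θ (qf hsq).deg (qf hsq).sq)

theorem v4_sg {x z : Kˣ} (hx : ¬ IsSquare x) (hz : ¬ IsSquare z) (hxz : ¬ IsSquare (x * z))
    (hzT : ∀ v : HeightOneSpectrum (𝓞 K), ¬ Away K T v → LSq v z)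
    (hs : ∀ φ : K →+* ℝ, 0 < φ (z : K) → 0 < φ (x : K)) {e1 e2 e3 : ℤ} (h1 : SG D a x e1)
    (h2 : SG D a z e2) (h3 : SG D a (x * z) e3) : e1 * e2 * e3 = 1 := by
  -- the fields `K(√z)`, `K(√x, √z)`
  obtain ⟨La, i1, i2, i3, θz, hLd, hθz⟩ := exists_quad K z hz
  have hzx : ¬ IsSquare (((z : Kˣ) : K) * ((x : Kˣ) : K)) := by
    have h := v4_unit hxz
    rwa [Units.val_mul, mul_comm] at h
  have hxL : ¬ IsSquare (algebraMap K La (x : K)) :=
    not_sq_quad (v4_unit hz) (v4_unit hx) hzx θz hθz hLd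
  have hxL' : ¬ IsSquare (Units.map (algebraMap K La).toMonoidHom x) := by
    rintro ⟨y, hy⟩
    refine hxL ⟨(y : La), ?_⟩
    have h := congrArg (fun u : Laˣ => (u : La)) hy
    rw [← Units.val_mul]
    exact h
  obtain ⟨M, j1, j2, j3, η, hMd, hη⟩ :=
    exists_quad La (Units.map (algebraMap K La).toMonoidHom x) hxL'
  have hrel := rel43_w D hx hz hxz hzT La hLd θz hθz M hMd η hη (qf hx).L (qf hx).deg (qf hx).θ
    (qf hx).sq (qf hxz).L (qf hxz).deg (qf hxz).θ (qf hxz).sq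
  have hw := Pool.Agent.H73.AL.rel_w D hrel
  have hw2 : D.w K * (D.w K * (D.w M * 1)) =
    D.w La * (D.w (qf hx).L * (D.w (qf hxz).L * 1)) := hw
  rw [v4_w D hz La hLd θz hθz, v4_wx D hx, v4_wx D hxz] at hw2
  -- the functions
  have hHM : D.HW a M := by
    refine hE.2 La (Units.map (algebraMap K La).toMonoidHom x) hxL' (Or.inl fun ψ => ?_) M η hMd hη
    have h4 : (ψ.comp (algebraMap K La)) (z : K) = ψ θz ^ 2 := by
      rw [RingHom.comp_apply, ← hθz, map_pow]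
    have h5 : ψ θz ≠ 0 := by
      intro h
      have h6 : θz = 0 := ψ.injective (by rw [h, map_zero])
      rw [h6, zero_pow two_ne_zero] at hθz
      exact z.ne_zero ((algebraMap K La).injective (by rw [← hθz, map_zero]))
    have h7 := hs (ψ.comp (algebraMap K La)) (by
      rw [h4]
      positivity)
    exact h7
  obtain ⟨k, hk1, -, hk3, hk4⟩ := hE.1 K
  obtain ⟨μ, hμ1, -, hμ3, hμ4⟩ := hHM
  obtain ⟨-, A, hA1, -, hA3, hA4⟩ := h1
  obtain ⟨-, B, hB1, -, hB3, hB4⟩ := h2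
  obtain ⟨-, C, hC1, -, hC3, hC4⟩ := h3
  have hid : ∀ s : ℂ, k s ^ 2 * μ s = A s * B s * C s := by
    refine v4_id ((hk1.pow 2).mul hμ1) ((hA1.mul hB1).mul hC1) fun s hs' => ?_
    rw [hk4 s hs', hμ4 s hs', hA4 s hs', hB4 s hs', hC4 s hs']
    exact rel43 hTp hT D ha hx hz hxz hzT La hLd θz hθz M hMd η hη hs'
  have h30 : (3 / 2 : ℝ) < (3 : ℂ).re := by
    norm_num
  have hk2 : k 3 ^ 2 = k (2 - 3) ^ 2 := by
    rcases hk3 with h | h
    · rw [h 3]
    · rw [h 3]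
      ring
  have hres := v4_alg hk2 (hμ3 3) (hA3 3) (hB3 3) (hC3 3) (hid 3) (hid (2 - 3))
    (by rw [hA4 3 h30]; exact LX_ne D hT ha x h30) (by rw [hB4 3 h30]; exact LX_ne D hT ha z h30)
    (by rw [hC4 3 h30]; exact LX_ne D hT ha (x * z) h30) (Pool.Agent.H73.AL.w_sq D K)
    (wx_cases D x) (wx_cases D z) (wx_cases D (x * z)) hw2
  exact_mod_cast hres

end Pool.Agent.THG
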