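import Pool.Agent.THG.G.Defs
import Pool.Agent.THF.K.LXa
import Pool.Agent.THF.K.LXb
import Pool.Agent.QD.In.CongL
import Pool.Agent.QD.In.CongZ

/-!
# THG/G-Sg1: existence and uniqueness of the sign

PLAN.  `wx_sq`: a square `x`: `nr x + nc x = 2 (..)` (`dif_pos`), `sgx = sg^2 = 1` (`sgx_cases`, or `sg_cases`).  `SG_ex`: `x` a square: `Λ_K ^ 2` with `Λ_K` of `HWpm D a K`, `LX_sq`, `η = 1` (`wx = 1`, the sign of `Λ_K` is squared).  `x` no square: `L = (qf hx).L`, `HWpm D a L` gives `Λ` with `Λ s = ± Λ (2 - s)`,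
`LX_quad`; `wx = ± 1` (`wx_cases`, QD/In/CongL): `η = ± wx`.
`SG_uniq`: `Λ = Λ'` (identity theorem: entire, equal for `Re s > 3/2`), `η wx Λ (2 - s) = η' wx Λ (2 - s)`, `Λ (2 - s) ≠ 0` for `Re (2 - s) > 3/2` (`LX_ne`), `wx ≠ 0`.
`SG_hw`: `D.w L = wx D x` (`dif_neg`; for a general `L` use `Lam_iso`-like lemmas: see `LX_quad`, `quad_iso`, THF/K/LXa, `w` and `Lam` are invariant under isomorphisms: THF/K/Iso), `LX_quad`.
-/

namespace Pool.Agent.THG

open NumberField IsDedekindDomain Pool.Agent.HWR Pool.Agent.QD Pool.Agent.QD.In Pool.Agent.LD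
  Pool.Agent.MD Pool.Agent.THF

variable {T : Finset ℕ} (hTp : ∀ p ∈ T, p.Prime) (hT : ∀ p : ℕ, p.Prime → p < 101 → p ∈ T)
  (D : LocData T) {a : ℕ → ℝ} (ha : ∀ q : ℕ, |a q| ≤ 2 * Real.sqrt q)
  {K : Type} [Field K] [NumberField K]

private theorem sg1_w_iso {F F' : Type} [Field F] [NumberField F] [Field F'] [NumberField F']
    (e : F ≃+* F') : D.w F = D.w F' := by
  have h := Pool.Agent.H73.AL.rel_w D (rel_iso e T)
  simp only [List.map_cons, List.map_nil, List.prod_cons, List.prod_nil, mul_one] at h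
  exact h

private theorem sg1_w {x : Kˣ} (hx : ¬ IsSquare x) (L : Type) [Field L] [NumberField L]
    [Algebra K L] (hd : Module.finrank K L = 2) (θ : L) (hθ : θ ^ 2 = algebraMap K L (x : K)) :
    wx D x = D.w L := by
  have h1 : nr x = InfinitePlace.nrRealPlaces (qf hx).L := dif_neg hx
  have h2 : nc x = InfinitePlace.nrComplexPlaces (qf hx).L := dif_neg hx
  have h3 : sgx D x = D.sg (qf hx).L := dif_neg hx
  obtain ⟨e⟩ := quad_iso hx (qf hx).L L (qf hx).deg hd (qf hx).θ θ (qf hx).sq hθ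
  rw [← sg1_w_iso D e.toRingEquiv]
  unfold wx LocData.w
  rw [h1, h2, h3]

private theorem sg1_eq {f g : ℂ → ℂ} (hf : Differentiable ℂ f) (hg : Differentiable ℂ g)
    (h : ∀ s : ℂ, 3 / 2 < s.re → f s = g s) : f = g := by
  have h1 := hf.differentiableOn.analyticOnNhd isOpen_univ
  have h2 := hg.differentiableOn.analyticOnNhd isOpen_univ
  refine AnalyticOnNhd.eq_of_eventuallyEq (z₀ := 2) h1 h2 ?_
  have h3 : {s : ℂ | 3 / 2 < s.re} ∈ nhds (2 : ℂ) := by
    refine (isOpen_lt continuous_const Complex.continuous_re).mem_nhds ?_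
    show (3 / 2 : ℝ) < (2 : ℂ).re
    norm_num
  filter_upwards [h3] with s hs
  exact h s hs

theorem wx_sq {x : Kˣ} (hx : IsSquare x) : wx D x = 1 := by
  have h1 : nr x = 2 * InfinitePlace.nrRealPlaces K := dif_pos hx
  have h2 : nc x = 2 * InfinitePlace.nrComplexPlaces K := dif_pos hx
  have h3 : sgx D x = D.sg K ^ 2 := dif_pos hx
  have h4 : sgx D x = 1 := by
    rcases sgx_cases D x with h | h
    · exact h
    · have h5 := sq_nonneg (D.sg K)
      rw [← h3, h] at h5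
      norm_num at h5
  unfold wx
  rw [h4, h1, h2, ← mul_add, pow_mul]
  norm_num

include hTp hT ha

theorem SG_sq {x : Kˣ} (hx : IsSquare x) (hp : HWpm D a K) : SG D a x 1 := by
  obtain ⟨Λ, h1, h2, h3, h4⟩ := hp
  refine ⟨Or.inl rfl, fun s => Λ s ^ 2, h1.pow 2, Pool.Agent.QD.In.finOrd_pow h2 2, fun s => ?_,
    fun s hs => ?_⟩
  · have h5 : Λ s ^ 2 = Λ (2 - s) ^ 2 := by
      rcases h3 with h | h
      · rw [h s]
      · rw [h s, neg_sq]
    show Λ s ^ 2 = ((1 : ℤ) : ℂ) * wx D x * Λ (2 - s) ^ 2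
    rw [wx_sq D hx, h5]
    push_cast
    ring
  · show Λ s ^ 2 = LX D a x s
    rw [h4 s hs, LX_sq D hTp hT ha hx hs]

theorem SG_ex (hp : ∀ (F : Type) [Field F] [NumberField F], HWpm D a F) (x : Kˣ) :
    ∃ η : ℤ, SG D a x η := by
  by_cases hx : IsSquare x
  · exact ⟨1, SG_sq hTp hT D ha hx (hp K)⟩
  · obtain ⟨Λ, h1, h2, h3, h4⟩ := hp (qf hx).L
    have h5 : ∀ s : ℂ, 3 / 2 < s.re → Λ s = LX D a x s := fun s hs => by
      rw [h4 s hs, LX_quad D hTp hT ha hx (qf hx).L (qf hx).deg (qf hx).θ (qf hx).sq hs]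
    rcases wx_cases D x with hw | hw <;> rcases h3 with h | h
    · refine ⟨1, Or.inl rfl, Λ, h1, h2, fun s => ?_, h5⟩
      rw [h s, hw]
      have h6 : (2 : ℂ) - (2 - s) = s := by ring
      push_cast
      rw [one_mul, one_mul]
    · refine ⟨-1, Or.inr rfl, Λ, h1, h2, fun s => ?_, h5⟩
      rw [h s, hw]
      push_cast
      ring
    · refine ⟨-1, Or.inr rfl, Λ, h1, h2, fun s => ?_, h5⟩
      rw [h s, hw]
      push_cast
      ring
    · refine ⟨1, Or.inl rfl, Λ, h1, h2, fun s => ?_, h5⟩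
      rw [h s, hw]
      push_cast
      ring

theorem SG_uniq {x : Kˣ} {η η' : ℤ} (h : SG D a x η) (h' : SG D a x η') : η = η' := by
  have _ := hTp
  obtain ⟨_, Λ, h1, _, h3, h4⟩ := h
  obtain ⟨_, Λ', k1, _, k3, k4⟩ := h'
  have he : Λ = Λ' := sg1_eq h1 k1 fun s hs => by rw [h4 s hs, k4 s hs]
  subst he
  have e3 : (2 : ℂ) - (-1) = 3 := by norm_num
  have hre : (3 / 2 : ℝ) < (3 : ℂ).re := by norm_num
  have hne : Λ 3 ≠ 0 := by
    rw [h4 3 hre]
    exact LX_ne D hT ha x hre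
  have hw : wx D x ≠ 0 := by
    rcases wx_cases D x with hw | hw <;> rw [hw] <;> norm_num
  have h5 := h3 (-1)
  have h6 := k3 (-1)
  rw [e3] at h5 h6
  rw [h5] at h6
  have h7 := mul_right_cancel₀ hw (mul_right_cancel₀ hne h6)
  exact_mod_cast h7

theorem SG_of_hw {x : Kˣ} (hx : ¬ IsSquare x) (L : Type) [Field L] [NumberField L]
    [Algebra K L] (hd : Module.finrank K L = 2) (θ : L) (hθ : θ ^ 2 = algebraMap K L (x : K))
    (h : D.HW a L) : SG D a x 1 := by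
  obtain ⟨Λ, h1, h2, h3, h4⟩ := h
  refine ⟨Or.inl rfl, Λ, h1, h2, fun s => ?_, fun s hs => ?_⟩
  · rw [h3 s, sg1_w D hx L hd θ hθ]
    push_cast
    ring
  · rw [h4 s hs, LX_quad D hTp hT ha hx L hd θ hθ hs]

theorem hw_of_SG {x : Kˣ} (hx : ¬ IsSquare x) (L : Type) [Field L] [NumberField L]
    [Algebra K L] (hd : Module.finrank K L = 2) (θ : L) (hθ : θ ^ 2 = algebraMap K L (x : K))
    (h : SG D a x 1) : D.HW a L := by
  obtain ⟨_, Λ, h1, h2, h3, h4⟩ := h
  refine ⟨Λ, h1, h2, fun s => ?_, fun s hs => ?_⟩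
  · have h5 := h3 s
    rw [sg1_w D hx L hd θ hθ] at h5
    rw [h5]
    push_cast
    ring
  · rw [h4 s hs, LX_quad D hTp hT ha hx L hd θ hθ hs]

end Pool.Agent.THG
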