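import Pool.Agent.THF.K.Defs
import Pool.Agent.MD.S.Defs

/-!
# THG/G-Defs: signs of the functional equations of the quadratic extensions

`ExPM D a` is the conclusion of THEOREM TH (THF/F/Main).
-/

namespace Pool.Agent.THG

open NumberField IsDedekindDomain Pool.Agent.HWR Pool.Agent.QD Pool.Agent.QD.In Pool.Agent.LD
  Pool.Agent.MD Pool.Agent.THF

variable {T : Finset ℕ} (D : LocData T) (a : ℕ → ℝ)

/-- Hasse-Weil up to sign for all number fields, and with the exact sign for `K(√x)`, `x` totally positive or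
totally negative -/
def ExPM : Prop :=
  (∀ (K : Type) [Field K] [NumberField K], HWpm D a K) ∧
    ∀ (K : Type) [Field K] [NumberField K] (x : Kˣ), ¬ IsSquare x →
      ((∀ φ : K →+* ℝ, 0 < φ (x : K)) ∨ ∀ φ : K →+* ℝ, φ (x : K) < 0) →
      ∀ (F : Type) [Field F] [NumberField F] [Algebra K F] (θ : F), Module.finrank K F = 2 →
        θ ^ 2 = algebraMap K F (x : K) → D.HW a F

variable {K : Type} [Field K] [NumberField K]

/-- the completed L-function of `K(√x)` is entire, of finite order, with the sign `η w` -/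
def IsLmS (x : Kˣ) (η : ℤ) (Λ : ℂ → ℂ) : Prop :=
  Differentiable ℂ Λ ∧ FinOrd Λ ∧ (∀ s : ℂ, Λ s = (η : ℂ) * wx D x * Λ (2 - s)) ∧
    ∀ s : ℂ, 3 / 2 < s.re → Λ s = LX D a x s

/-- the sign of `x` is `η` -/
def SG (x : Kˣ) (η : ℤ) : Prop := (η = 1 ∨ η = -1) ∧ ∃ Λ, IsLmS D a x η Λ

open Classical in
/-- product over the real embeddings at which `x` is negative -/
noncomputable def chi (e : (K →+* ℝ) → ℤ) (x : Kˣ) : ℤ :=
  ∏ᶠ φ : K →+* ℝ, if φ (x : K) < 0 then e φ else 1

end Pool.Agent.THG
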