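import Pool.Agent.THF.T2.Perp
import Pool.Agent.THF.F.ExA

/-!
# THG/G-RealA: elements with prescribed signs at the real embeddings

PLAN.  The real embeddings are finitely many.  Let `θ` be a primitive element of `K / ℚ` (`Field.exists_primitive_element`), so the numbers `φ θ` are different (a ring homomorphism from `K` is determined by the image of `θ`).  There is a real polynomial with prescribed values `∓ 1` at these numbers (`Lagrange.interpolate`), and a
polynomial `p` with rational coefficients close to it (density of `ℚ`: the values at the finitely many points are continuous functions of the coefficients), so that `φ (p θ) = p (φ θ)` has the prescribed signs; `u = p θ ≠ 0` (if there is no real embedding take `u = 1`).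
Other ways: weak approximation at infinite places in Mathlib (`NumberField.InfinitePlace` / `InfiniteAdeleRing` density, see `Mathlib/NumberTheory/NumberField/InfiniteAdeleRing` and `WeakApproximation`-like files), or multiplicative: for each `φ` an element negative exactly at `φ` (`Aθ`-linear fractions: `(θ - r)(θ - r')` with rational
numbers `r < φ θ < r'` isolating `φ θ` is negative exactly at `φ`): this is the shortest: `u = ∏_(φ ∈ A) (θ - r_φ) (θ - r'_φ)`.
-/

namespace Pool.Agent.THG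

open NumberField IsDedekindDomain Pool.Agent.HWR Pool.Agent.QD Pool.Agent.QD.In Pool.Agent.LD
  Pool.Agent.MD Pool.Agent.THF

variable {K : Type} [Field K] [NumberField K]

private theorem RealA_theta : ∃ θ : K, ∀ φ ψ : K →+* ℝ, φ θ = ψ θ → φ = ψ := by
  obtain ⟨θ, hθ⟩ := Field.exists_primitive_element ℚ K
  refine ⟨θ, fun φ ψ h => ?_⟩
  have h1 := (Field.primitive_element_iff_algHom_eq_of_eval' ℚ ℂ
    (fun x => IsAlgClosed.splits _) θ).1 hθ
  have h2 : (Complex.ofRealHom.comp φ).toRatAlgHom = (Complex.ofRealHom.comp ψ).toRatAlgHom := by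
    apply h1
    change Complex.ofRealHom (φ θ) = Complex.ofRealHom (ψ θ)
    rw [h]
  ext x
  have h3 := DFunLike.congr_fun h2 x
  change Complex.ofRealHom (φ x) = Complex.ofRealHom (ψ x) at h3
  exact Complex.ofRealHom.injective h3

private theorem RealA_one (φ₀ : K →+* ℝ) : ∃ v : K, φ₀ v < 0 ∧ ∀ φ : K →+* ℝ, φ ≠ φ₀ → 0 < φ v := by
  obtain ⟨θ, hθ⟩ := RealA_theta (K := K)
  obtain ⟨F, hF⟩ : ∃ F : Set ℝ, F = {x | ∃ φ : K →+* ℝ, φ ≠ φ₀ ∧ φ θ = x} := ⟨_, rfl⟩
  have hfin : F.Finite := by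
    refine (Set.finite_range fun φ : K →+* ℝ => φ θ).subset ?_
    rw [hF]
    rintro x ⟨φ, -, h⟩
    exact ⟨φ, h⟩
  have hmem : φ₀ θ ∈ Fᶜ := by
    rw [hF]
    rintro ⟨φ, h1, h2⟩
    exact h1 (hθ _ _ h2)
  obtain ⟨ε, hε, hb⟩ := Metric.isOpen_iff.1 hfin.isClosed.isOpen_compl _ hmem
  obtain ⟨r, hr1, hr2⟩ := exists_rat_btwn (show φ₀ θ - ε < φ₀ θ by linarith)
  obtain ⟨r', hr1', hr2'⟩ := exists_rat_btwn (show φ₀ θ < φ₀ θ + ε by linarith)
  have hval : ∀ φ : K →+* ℝ, φ ((θ - (r : K)) * (θ - (r' : K))) = (φ θ - r) * (φ θ - r') := by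
    intro φ
    rw [map_mul, map_sub, map_sub, map_ratCast, map_ratCast]
  refine ⟨(θ - (r : K)) * (θ - (r' : K)), ?_, fun φ hφ => ?_⟩
  · rw [hval]
    exact mul_neg_of_pos_of_neg (by linarith) (by linarith)
  · rw [hval]
    have h1 : φ θ ∈ F := by
      rw [hF]
      exact ⟨φ, hφ, rfl⟩
    have h2 : φ θ ∉ Metric.ball (φ₀ θ) ε := fun h => hb h h1
    rw [Metric.mem_ball, Real.dist_eq, not_lt] at h2
    rcases le_or_gt 0 (φ θ - φ₀ θ) with h3 | h3
    · rw [abs_of_nonneg h3] at h2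
      exact mul_pos (by linarith) (by linarith)
    · rw [abs_of_neg h3] at h2
      exact mul_pos_of_neg_of_neg (by linarith) (by linarith)

theorem exists_sign (A : Set (K →+* ℝ)) : ∃ u : Kˣ, ∀ φ : K →+* ℝ, (φ ∈ A → φ (u : K) < 0) ∧
    (φ ∉ A → 0 < φ (u : K)) := by
  classical
  choose v hv1 hv2 using fun φ₀ : K →+* ℝ => RealA_one φ₀
  obtain ⟨S, hS⟩ : ∃ S : Finset (K →+* ℝ), ∀ φ, φ ∈ S ↔ φ ∈ A :=
    ⟨Finset.univ.filter (fun φ => φ ∈ A), fun φ => by simp⟩
  have hv0 : ∀ φ, v φ ≠ 0 := by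
    intro φ h
    have := hv1 φ
    rw [h, map_zero] at this
    exact lt_irrefl _ this
  have hne : ∏ φ ∈ S, v φ ≠ 0 := Finset.prod_ne_zero_iff.2 fun φ _ => hv0 φ
  refine ⟨Units.mk0 _ hne, fun φ => ⟨fun h => ?_, fun h => ?_⟩⟩
  · rw [Units.val_mk0, map_prod, ← Finset.mul_prod_erase S _ ((hS φ).2 h)]
    refine mul_neg_of_neg_of_pos (hv1 φ) (Finset.prod_pos fun ψ hψ => ?_)
    exact hv2 ψ φ (Finset.ne_of_mem_erase hψ).symm
  · rw [Units.val_mk0, map_prod]
    refine Finset.prod_pos fun ψ hψ => hv2 ψ φ ?_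
    rintro rfl
    exact h ((hS φ).1 hψ)

end Pool.Agent.THG
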