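import Pool.Agent.THG.G.Defs
import Pool.Agent.LD.I.Sys0
import Pool.Agent.MD.S.ZExt
import Pool.Agent.MD.S.GMid

/-!
# THG/G-SysD: the system with the signs `chi e`

The axioms `IsSys0`, `IsExt` for `sysE`, which differs from `sys S D a` (QD/In/Def) only in `ell` and `GG`; `chi e` is
a character with the values `± 1`.
-/

namespace Pool.Agent.THG

open NumberField IsDedekindDomain Pool.Agent.HWR Pool.Agent.QD Pool.Agent.QD.In Pool.Agent.LD
  Pool.Agent.MD Pool.Agent.THF

variable {K : Type} [Field K] [NumberField K] (S : Finset (HeightOneSpectrum (𝓞 K)))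
  {T : Finset ℕ} (D : LocData T) (a : ℕ → ℝ) (e : (K →+* ℝ) → ℤ)

/-- the completed L-function with the sign `chi e x` -/
noncomputable def LmE (x : Kˣ) : ℂ → ℂ := Classical.epsilon (IsLmS D a x (chi e x))

open Classical in
/-- L-function of `K(√x)` without the Euler factors at `S` -/
noncomputable def ellXE (x : Kˣ) (s : ℂ) : ℂ :=
  LmE D a e x s * ((dd x ^ 2 * cdx D x : ℝ) : ℂ) ^ (-s / 2) *
    (gam1 s)⁻¹ ^ (2 * Module.finrank ℚ K) * plx D x s *
    ∏ v ∈ S with Away K T v, (FF a (nrm v) (tt x v) s)⁻¹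

open Classical in
noncomputable def ellcE (b : Io S →₀ ℕ) (c : GS S) (s : ℂ) : ℂ :=
  if h : Rel S b c then ellXE S D a e h.choose s else 0

/-- the system with signs -/
noncomputable def sysE : SysD :=
  { sys S D a with
    ell := ellcE S D a e
    GG := fun g s => (chi e (Quotient.out g) : ℂ) * GGX S D a (Quotient.out g) s }

variable {S e} {T1 : Finset ℕ} (hS : Nic T1 S) (hST : ∀ v, ¬ Away K T v → v ∈ S)
  (hT : ∀ p : ℕ, p.Prime → p < 101 → p ∈ T) (he : ∀ φ, e φ = 1 ∨ e φ = -1)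

omit [NumberField K] in
theorem chi_congr (e : (K →+* ℝ) → ℤ) {x y : Kˣ} (h : ∀ φ : K →+* ℝ, 0 < φ ((x / y : Kˣ) : K)) :
    chi e x = chi e y := by
  classical
  refine finprod_congr fun φ => ?_
  have h1 : φ (x : K) = φ ((x / y : Kˣ) : K) * φ (y : K) := by
    rw [← map_mul, ← Units.val_mul, div_mul_cancel]
  have h2 : φ (x : K) < 0 ↔ φ (y : K) < 0 := by
    rw [h1]
    constructor
    · intro h3
      exact neg_of_mul_neg_right h3 (h φ).le
    · intro h3
      exact mul_neg_of_pos_of_neg (h φ) h3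
  by_cases h3 : φ (y : K) < 0
  · rw [if_pos (h2.2 h3), if_pos h3]
  · rw [if_neg (fun h4 => h3 (h2.1 h4)), if_neg h3]

include he in
theorem chi_mul (x y : Kˣ) : chi e (x * y) = chi e x * chi e y := by
  classical
  unfold chi
  rw [← finprod_mul_distrib (Set.toFinite _) (Set.toFinite _)]
  refine finprod_congr fun φ => ?_
  have hx : φ (x : K) ≠ 0 := by
    rw [map_ne_zero]
    exact x.ne_zero
  have hy : φ (y : K) ≠ 0 := by
    rw [map_ne_zero]
    exact y.ne_zero
  have h1 : φ ((x * y : Kˣ) : K) = φ (x : K) * φ (y : K) := by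
    rw [Units.val_mul, map_mul]
  rw [h1]
  have he2 : e φ * e φ = 1 := by
    rcases he φ with h | h <;> rw [h] <;> norm_num
  rcases lt_or_gt_of_ne hx with h2 | h2
  · rcases lt_or_gt_of_ne hy with h3 | h3
    · rw [if_neg (not_lt.2 (mul_pos_of_neg_of_neg h2 h3).le), if_pos h2, if_pos h3, he2]
    · rw [if_pos (mul_neg_of_neg_of_pos h2 h3), if_pos h2, if_neg (not_lt.2 h3.le), mul_one]
  · rcases lt_or_gt_of_ne hy with h3 | h3
    · rw [if_pos (mul_neg_of_pos_of_neg h2 h3), if_neg (not_lt.2 h2.le), if_pos h3, one_mul]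
    · rw [if_neg (not_lt.2 (mul_pos h2 h3).le), if_neg (not_lt.2 h2.le), if_neg (not_lt.2 h3.le),
        one_mul]

include he in
theorem chi_sq (x : Kˣ) : chi e x = 1 ∨ chi e x = -1 := by
  classical
  refine finprod_induction (fun n : ℤ => n = 1 ∨ n = -1) (Or.inl rfl) ?_ fun φ => ?_
  · rintro a b (rfl | rfl) (rfl | rfl) <;> norm_num
  · split_ifs
    · exact he φ
    · exact Or.inl rfl

include hS hST hT in
theorem isSys0E {a : ℕ → ℝ} (ha : ∀ q : ℕ, |a q| ≤ 2 * Real.sqrt q) (ha2 : SqRel K T a) :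
    IsSys0 (sysE S D a e) := by
  have h := isSys0 D hS hST hT ha ha2
  exact ⟨h.cnt, h.hN, h.sumN, h.hlam, h.B_mul, h.B_comm, h.B_sq, h.R_ex, h.R_one, h.R_coset,
    h.U_perp, h.u_odd, h.u_even, h.recip, h.R_two, h.u_two, h.Zf_diff, h.Zf_ord, h.Zf_eq, h.Zf_fe,
    h.Gam_diff, h.Gam_bd⟩

include hS hT he in
theorem isExtE {a : ℕ → ℝ} (ha : ∀ q : ℕ, |a q| ≤ 2 * Real.sqrt q) : IsExt (sysE S D a e) := by
  refine ⟨fun m g h hn => zext_one D (a := a) hS m g h hn, zext_ne D (a := a) hS,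
    zext_ext D (a := a) S, fun c => ?_⟩
  refine ⟨(GGX_mid D S hT ha (Quotient.out c)).const_mul _, fun s h1 h2 => ?_⟩
  refine mul_ne_zero ?_ (GGX_mid_ne D S hT ha (Quotient.out c) h1 h2)
  rcases chi_sq he (Quotient.out c) with h | h <;> rw [h] <;> norm_num

end Pool.Agent.THG
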