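import Pool.Agent.THG.G.SysD
import Pool.Agent.THF.K.IsKn
import Pool.Agent.LD.I.GInvB

/-!
# THG/G-SysK: all L-functions of the system with signs are known

PLAN.  `LmE D a e x` satisfies `IsLmS D a x (chi e x)` (`Classical.epsilon_spec`, `hx`).  The lemmas `ellX_diff`, `ellX_ord`, `ellX_eq`, `ellX_fe` (QD/In/EllX.lean) for `ellXE` instead of `ellX`: copy their proofs; `IsLm` has the same four fields, the only difference is the factor `chi e x` in the functional equation (`LX` is the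
right-hand side of the fourth field by definition).  Then as in `isKnN` (THF/K/IsKn.lean): `ellcE` of a representative (`h.choose`, as `ellc_of`, QD/In/Cls), `chi e (out c) = chi e x` (`chi_congr`, `out_div`; `HSub`: `mem_HSub`), `GGX_congr`; `GG_diff`, `GG_bd`, `GG_inv`: `GGX_diff`, `GGX_bd`, `GGX_inv` times a constant `± 1`.
-/

namespace Pool.Agent.THG

open NumberField IsDedekindDomain Pool.Agent.HWR Pool.Agent.QD Pool.Agent.QD.In Pool.Agent.LD
  Pool.Agent.MD Pool.Agent.THF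

private theorem SysK_gam1_ne {s : ℂ} (hs : 0 < s.re) : gam1 s ≠ 0 := by
  unfold gam1
  refine mul_ne_zero ?_ (Complex.Gamma_ne_zero_of_re_pos hs)
  rw [Complex.cpow_ne_zero_iff]
  left
  exact_mod_cast (by positivity : (2 * Real.pi : ℝ) ≠ 0)

private theorem SysK_plx_diff {K : Type} [Field K] [NumberField K] {T : Finset ℕ} (D : LocData T)
    (x : Kˣ) : Differentiable ℂ (plx D x) := by
  by_cases h : IsSquare x
  · have : plx D x = fun s => D.pl K s ^ 2 := by
      funext s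
      unfold plx
      rw [dif_pos h]
    rw [this]
    exact (pl_diff D K).pow 2
  · have : plx D x = D.pl (qf h).L := by
      funext s
      unfold plx
      rw [dif_neg h]
    rw [this]
    exact pl_diff D _

private theorem SysK_plx_ord {K : Type} [Field K] [NumberField K] {T : Finset ℕ} (D : LocData T)
    (x : Kˣ) : FinOrd (plx D x) := by
  by_cases h : IsSquare x
  · have : plx D x = fun s => D.pl K s ^ 2 := by
      funext s
      unfold plx
      rw [dif_pos h]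
    rw [this]
    exact finOrd_pow (pl_ord D K) 2
  · have : plx D x = D.pl (qf h).L := by
      funext s
      unfold plx
      rw [dif_neg h]
    rw [this]
    exact pl_ord D _

private theorem SysK_AA {K : Type} [Field K] [NumberField K] {T : Finset ℕ} (D : LocData T)
    (x : Kˣ) : 0 < dd x ^ 2 * cdx D x :=
  mul_pos (pow_pos (dd_pos x) 2) (cdx_pos D x)

private theorem SysK_prod_diff {K : Type} [Field K] [NumberField K]
    (s : Finset (HeightOneSpectrum (𝓞 K))) (a : ℕ → ℝ) (x : Kˣ) :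
    Differentiable ℂ fun z => ∏ v ∈ s, (FF a (nrm v) (tt x v) z)⁻¹ := by
  classical
  induction s using Finset.induction_on with
  | empty => simp only [Finset.prod_empty]; exact differentiable_const _
  | insert v s hv ih =>
    simp only [Finset.prod_insert hv]
    exact (ffi_diff a (nrm_ne_zero v) _).mul ih

private theorem SysK_prod_ord {K : Type} [Field K] [NumberField K]
    (s : Finset (HeightOneSpectrum (𝓞 K))) (a : ℕ → ℝ) (x : Kˣ) :
    FinOrd fun z => ∏ v ∈ s, (FF a (nrm v) (tt x v) z)⁻¹ := by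
  classical
  induction s using Finset.induction_on with
  | empty => simp only [Finset.prod_empty]; exact finOrd_const _
  | insert v s hv ih =>
    simp only [Finset.prod_insert hv]
    exact finOrd_mul (ffi_ord a (nrm_ne_zero v) _) ih

section ell

variable {K : Type} [Field K] [NumberField K] (S : Finset (HeightOneSpectrum (𝓞 K)))
  {T : Finset ℕ} (D : LocData T) {a : ℕ → ℝ} (e : (K →+* ℝ) → ℤ) (x : Kˣ)

private theorem SysK_diff (hL : IsLmS D a x (chi e x) (LmE D a e x)) :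
    Differentiable ℂ (ellXE S D a e x) := by
  have hA := SysK_AA D x
  have h1 : Differentiable ℂ fun s : ℂ => ((dd x ^ 2 * cdx D x : ℝ) : ℂ) ^ (-s / 2) := by
    have hA' : ((dd x ^ 2 * cdx D x : ℝ) : ℂ) ≠ 0 := by exact_mod_cast hA.ne'
    exact (differentiable_id.neg.div_const 2).const_cpow (Or.inl hA')
  have h3 := (((hL.1.mul h1).mul (invgam1_diff.pow (2 * Module.finrank ℚ K))).mul
    (SysK_plx_diff D x)).mul (SysK_prod_diff (open Classical in S.filter fun v => Away K T v) a x)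
  exact h3

private theorem SysK_ord (hL : IsLmS D a x (chi e x) (LmE D a e x)) :
    FinOrd (ellXE S D a e x) := by
  have hA := SysK_AA D x
  have h1 : FinOrd fun s : ℂ => ((dd x ^ 2 * cdx D x : ℝ) : ℂ) ^ (-s / 2) := by
    refine Z.finOrd_congr (finOrd_cpow hA (-1 / 2) 0) fun s => ?_
    congr 1
    ring
  have h3 := finOrd_mul (finOrd_mul (finOrd_mul (finOrd_mul hL.2.1 h1)
    (finOrd_pow finOrd_invgam1 (2 * Module.finrank ℚ K))) (SysK_plx_ord D x))
    (SysK_prod_ord (open Classical in S.filter fun v => Away K T v) a x)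
  exact h3

private theorem SysK_eq (h2 : ∀ v : HeightOneSpectrum (𝓞 K), (2 : 𝓞 K) ∈ v.asIdeal → v ∈ S)
    (hST : ∀ v, ¬ Away K T v → v ∈ S) (hT : ∀ p : ℕ, p.Prime → p < 101 → p ∈ T)
    (ha : ∀ q : ℕ, |a q| ≤ 2 * Real.sqrt q) (ha2 : SqRel K T a)
    (hL : IsLmS D a x (chi e x) (LmE D a e x)) {s : ℂ} (hs : 3 / 2 < s.re) :
    ellXE S D a e x s = (∏' v : Io S, Pool.Agent.QD.In.ef a (nrm v.1) 1 s) *
      ∏' v : Io S, Pool.Agent.QD.In.ef a (nrm v.1) (uK v.1 x) s := by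
  classical
  have hA := SysK_AA D x
  have hA' : ((dd x ^ 2 * cdx D x : ℝ) : ℂ) ≠ 0 := by exact_mod_cast hA.ne'
  have hg : gam1 s ≠ 0 := SysK_gam1_ne (by linarith)
  have hp : plx D x s ≠ 0 := plx_ne D x (by linarith)
  have hF : (∏ v ∈ S with Away K T v, FF a (nrm v) (tt x v) s) ≠ 0 := by
    refine Finset.prod_ne_zero_iff.2 fun v hv => ?_
    exact ff_ne ha (nrm_ge K T hT v (Finset.mem_filter.1 hv).2) _ (by linarith)
  have hc : ((dd x ^ 2 * cdx D x : ℝ) : ℂ) ^ (s / 2) *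
      ((dd x ^ 2 * cdx D x : ℝ) : ℂ) ^ (-s / 2) = 1 := by
    rw [← Complex.cpow_add _ _ hA']
    have : s / 2 + -s / 2 = 0 := by ring
    rw [this, Complex.cpow_zero]
  unfold ellXE
  rw [hL.2.2.2 s hs]
  unfold LX
  rw [tprod_FF S h2 hST hT ha ha2 x hs, Finset.prod_inv_distrib]
  set P := (∏' v : Io S, Pool.Agent.QD.In.ef a (nrm v.1) 1 s) *
    ∏' v : Io S, Pool.Agent.QD.In.ef a (nrm v.1) (uK v.1 x) s
  set F := ∏ v ∈ S with Away K T v, FF a (nrm v) (tt x v) s
  set c1 := ((dd x ^ 2 * cdx D x : ℝ) : ℂ) ^ (s / 2)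
  set c2 := ((dd x ^ 2 * cdx D x : ℝ) : ℂ) ^ (-s / 2)
  rw [inv_pow]
  have hgp := pow_ne_zero (2 * Module.finrank ℚ K) hg
  generalize gam1 s ^ (2 * Module.finrank ℚ K) = g at hgp
  generalize plx D x s = p at hp
  calc c1 * g * (F * P / p) * c2 * g⁻¹ * p * F⁻¹
      = (c1 * c2) * (g * g⁻¹) * (p * p⁻¹) * (F * F⁻¹) * P := by
        rw [div_eq_mul_inv]
        ring
    _ = P := by
        rw [hc, mul_inv_cancel₀ hgp, mul_inv_cancel₀ hp, mul_inv_cancel₀ hF]
        ring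

private theorem SysK_fe (hT : ∀ p : ℕ, p.Prime → p < 101 → p ∈ T)
    (ha : ∀ q : ℕ, |a q| ≤ 2 * Real.sqrt q)
    (hL : IsLmS D a x (chi e x) (LmE D a e x)) {s : ℂ} (hs : s.re < 1 / 2) :
    ellXE S D a e x s = (oddN S x : ℂ) ^ (2 * (1 - s)) * ((chi e x : ℂ) * GGX S D a x s) *
      ellXE S D a e x (2 - s) := by
  classical
  have hre : (2 - s).re = 2 - s.re := by
    rw [Complex.sub_re]
    rfl
  have hA := SysK_AA D x
  have hA' : ((dd x ^ 2 * cdx D x : ℝ) : ℂ) ≠ 0 := by exact_mod_cast hA.ne'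
  have hg : gam1 (2 - s) ≠ 0 := SysK_gam1_ne (by linarith)
  have hp : plx D x (2 - s) ≠ 0 := plx_ne D x (by linarith)
  have hF : (∏ v ∈ S with Away K T v, FF a (nrm v) (tt x v) (2 - s)) ≠ 0 := by
    refine Finset.prod_ne_zero_iff.2 fun v hv => ?_
    exact ff_ne ha (nrm_ge K T hT v (Finset.mem_filter.1 hv).2) _ (by linarith)
  have hN : 0 < (oddN S x : ℝ) := by exact_mod_cast oddN_pos S x
  have hD0 : 0 < D0 S x ^ 2 * cdx D x := mul_pos (pow_pos (D0_pos S x) 2) (cdx_pos D x)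
  have hc : ((dd x ^ 2 * cdx D x : ℝ) : ℂ) ^ (-s / 2) =
      (oddN S x : ℂ) ^ (2 * (1 - s)) * ((D0 S x ^ 2 * cdx D x : ℝ) : ℂ) ^ (1 - s) *
        ((dd x ^ 2 * cdx D x : ℝ) : ℂ) ^ (-(2 - s) / 2) := by
    have e1 : (oddN S x : ℂ) ^ (2 * (1 - s)) = (((oddN S x : ℝ) ^ 2 : ℝ) : ℂ) ^ (1 - s) := by
      have h3 : (2 : ℂ) * (1 - s) = ((2 : ℕ) : ℂ) * (1 - s) := by norm_num
      rw [h3, Complex.cpow_nat_mul, pow_two, pow_two, Complex.ofReal_mul,
        Complex.mul_cpow_ofReal_nonneg hN.le hN.le]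
      push_cast
      rfl
    have e2 : dd x ^ 2 * cdx D x = (oddN S x : ℝ) ^ 2 * (D0 S x ^ 2 * cdx D x) := by
      rw [dd_eq S x]
      ring
    have e3 : ((dd x ^ 2 * cdx D x : ℝ) : ℂ) ^ (1 - s) =
        (((oddN S x : ℝ) ^ 2 : ℝ) : ℂ) ^ (1 - s) *
          ((D0 S x ^ 2 * cdx D x : ℝ) : ℂ) ^ (1 - s) := by
      rw [e2, Complex.ofReal_mul, Complex.mul_cpow_ofReal_nonneg (by positivity) hD0.le]
    rw [e1, ← e3, ← Complex.cpow_add _ _ hA']
    congr 1
    ring
  unfold ellXE GGX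
  rw [hL.2.2.1 s, hc, Finset.prod_mul_distrib, Finset.prod_inv_distrib, Finset.prod_inv_distrib]
  rw [inv_pow, inv_pow, mul_pow, inv_pow]
  have hgp := pow_ne_zero (2 * Module.finrank ℚ K) hg
  generalize gam1 (2 - s) ^ (2 * Module.finrank ℚ K) = g at hgp
  generalize (gam1 s ^ (2 * Module.finrank ℚ K))⁻¹ = g'
  generalize plx D x (2 - s) = p at hp
  generalize (∏ v ∈ S with Away K T v, FF a (nrm v) (tt x v) (2 - s)) = F at hF
  generalize (∏ v ∈ S with Away K T v, FF a (nrm v) (tt x v) s)⁻¹ = F'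
  generalize LmE D a e x (2 - s) = l
  generalize (oddN S x : ℂ) ^ (2 * (1 - s)) = o
  generalize ((D0 S x ^ 2 * cdx D x : ℝ) : ℂ) ^ (1 - s) = c1
  generalize ((dd x ^ 2 * cdx D x : ℝ) : ℂ) ^ (-(2 - s) / 2) = c2
  generalize plx D x s = p'
  generalize (chi e x : ℂ) = η
  symm
  calc o * (η * (wx D x * c1 * (g * g') * (p' * p⁻¹) * (F * F'))) * (l * c2 * g⁻¹ * p * F⁻¹)
      = η * wx D x * l * (o * c1 * c2) * g' * p' * F' * (g * g⁻¹) * (p * p⁻¹) * (F * F⁻¹) := by
        ring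
    _ = η * wx D x * l * (o * c1 * c2) * g' * p' * F' := by
        rw [mul_inv_cancel₀ hgp, mul_inv_cancel₀ hp, mul_inv_cancel₀ hF]
        ring

private theorem SysK_of (S : Finset (HeightOneSpectrum (𝓞 K))) (a : ℕ → ℝ) {b : Io S →₀ ℕ}
    {c : GS S} (h : Rel S b c) :
    ∃ x : Kˣ, (∀ v : Io S, ordK v.1 x = (b v : ℤ)) ∧ (QuotientGroup.mk x : GS S) = c ∧
      ellcE S D a e b c = ellXE S D a e x := by
  refine ⟨h.choose, h.choose_spec.1, h.choose_spec.2, ?_⟩
  funext w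
  unfold ellcE
  rw [dif_pos h]

end ell

theorem isKnE {K : Type} [Field K] [NumberField K] {T : Finset ℕ} (D : LocData T) {a : ℕ → ℝ}
    {T1 : Finset ℕ} {S : Finset (HeightOneSpectrum (𝓞 K))} (hS : Nic T1 S)
    (hST : ∀ v, ¬ Away K T v → v ∈ S) (hT : ∀ p : ℕ, p.Prime → p < 101 → p ∈ T)
    (ha : ∀ q : ℕ, |a q| ≤ 2 * Real.sqrt q) (ha2 : SqRel K T a) {e : (K →+* ℝ) → ℤ}
    (he : ∀ φ, e φ = 1 ∨ e φ = -1) (hx : ∀ x : Kˣ, SG D a x (chi e x)) :
    IsKn (sysE S D a e) Set.univ := by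
  have h2 : ∀ v : HeightOneSpectrum (𝓞 K), (2 : 𝓞 K) ∈ v.asIdeal → v ∈ S := by
    intro v hv
    by_contra h
    exact nic_two hS v h hv
  have hLm : ∀ x : Kˣ, IsLmS D a x (chi e x) (LmE D a e x) :=
    fun x => Classical.epsilon_spec (hx x).2
  have hη : ∀ x : Kˣ, ‖(chi e x : ℂ)‖ = 1 := by
    intro x
    rcases chi_sq he x with h | h <;> rw [h] <;> norm_num
  have hη0 : ∀ x : Kˣ, (chi e x : ℂ) ≠ 0 := by
    intro x h
    have h1 := hη x
    rw [h, norm_zero] at h1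
    exact zero_ne_one h1
  constructor
  · intro b c h _
    obtain ⟨x, -, -, h3⟩ := SysK_of D e S a h
    show Differentiable ℂ (ellcE S D a e b c)
    rw [h3]
    exact SysK_diff S D e x (hLm x)
  · intro b c h _
    obtain ⟨x, -, -, h3⟩ := SysK_of D e S a h
    show FinOrd (ellcE S D a e b c)
    rw [h3]
    exact SysK_ord S D e x (hLm x)
  · intro b c h _ s hs
    obtain ⟨x, hb, hc, h3⟩ := SysK_of D e S a h
    show ellcE S D a e b c s = _
    rw [h3, SysK_eq S D e x h2 hST hT ha ha2 (hLm x) hs]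
    congr 1
    refine tprod_congr fun v => ?_
    show _ = Pool.Agent.QD.In.ef a (nrm v.1) (uc S v b c) s
    rw [uc_of hS hb hc v]
  · intro b c h _ s hs
    obtain ⟨x, hb, hc, h3⟩ := SysK_of D e S a h
    show ellcE S D a e b c s = _ * _ * ellcE S D a e b c (2 - s)
    rw [h3, SysK_fe S D e x hT ha (hLm x) hs]
    have e1 : (sysE S D a e).odd b = oddN S x := (oddN_eq S x b hb).symm
    have e2 : (sysE S D a e).GG c s = (chi e x : ℂ) * GGX S D a x s := by
      show (chi e (Quotient.out c) : ℂ) * GGX S D a (Quotient.out c) s =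
        (chi e x : ℂ) * GGX S D a x s
      rw [← hc, GGX_congr D S h2 hST (out_div S x),
        chi_congr e (mem_HSub.1 (out_div S x)).2]
    rw [e1, e2]
  · intro c s hs
    have h1 := (GGX_diff D S hT ha (Quotient.out c) hs).differentiableWithinAt
      (s := {s : ℂ | s.re < 1 / 2})
    exact h1.const_mul (chi e (Quotient.out c) : ℂ)
  · intro c p q hpq
    obtain ⟨A, C, hA, hC, h1⟩ := GGX_bd D S hT ha (Quotient.out c) p q hpq
    refine ⟨A, C, hA, hC, fun s hs1 hs2 => ?_⟩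
    show ‖(chi e (Quotient.out c) : ℂ) * GGX S D a (Quotient.out c) s‖ ≤ _
    rw [norm_mul, hη, one_mul]
    exact h1 s hs1 hs2
  · intro c
    obtain ⟨n0, h1⟩ := GGX_inv D S hT ha (Quotient.out c)
    refine ⟨n0, fun n hn => ?_⟩
    obtain ⟨A, C, hA, hC, h3⟩ := h1 n hn
    refine ⟨A, C, hA, hC, fun s hs => ?_⟩
    obtain ⟨h4, h5⟩ := h3 s hs
    show (chi e (Quotient.out c) : ℂ) * GGX S D a (Quotient.out c) (2 - s) ≠ 0 ∧
      ‖((chi e (Quotient.out c) : ℂ) * GGX S D a (Quotient.out c) (2 - s))⁻¹‖ ≤ _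
    refine ⟨mul_ne_zero (hη0 _) h4, ?_⟩
    rw [mul_inv, norm_mul, norm_inv, hη, inv_one, one_mul]
    exact h5

end Pool.Agent.THG
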